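import Mathlib
import Pool.Agent.Q89.AffAut2

set_option autoImplicit false

/-!
# Groups generated by automata of affine tree automorphisms

For every `d ≥ 2` there is a finite-state affine automorphism of the `d`-ary tree for which the
group generated by its automaton is infinite and is not a finite extension of `ℤ_d^k ≀ ℤ^l`.
Identifying the sequences `(f_0, g_0, f_1, g_1, ...)` with the pairs `(f, g)` of power series, it is
the multiplication by the matrix `[[1+t, 0], [1, 1]]`; the automaton also contains the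
multiplication by `[[1, t], [0, 1+t]]`, and powers of these two matrices never satisfy the laws of such a group.
-/

namespace Pool.Agent.Results.MP_7b3742_al.EveryAlphabet

/-- The transformation `x ↦ b + x A` of the infinite row vectors over `ℤ_d`, for an upper
triangular matrix `A` (only the entries `a i j` with `i ≤ j` are used). -/
def affineMap {d : ℕ} (a : ℕ → ℕ → ZMod d) (b : ℕ → ZMod d) (x : ℕ → ZMod d) : ℕ → ZMod d :=
  fun j => b j + ∑ i ∈ Finset.range (j + 1), x i * a i j

/-- `g` is an affine automorphism of the `d`-ary tree, as a transformation of the boundary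
`ℤ_d^∞`: `g(x) = b + x A` with `A` upper triangular with units on the diagonal. -/
def IsAffine {d : ℕ} (g : Equiv.Perm (ℕ → ZMod d)) : Prop :=
  ∃ (a : ℕ → ℕ → ZMod d) (b : ℕ → ZMod d), (∀ i, IsUnit (a i i)) ∧ ⇑g = affineMap a b

/-- The sequence `c, v 0, v 1, ...`. -/
def cons {d : ℕ} (c : ZMod d) (v : ℕ → ZMod d) : ℕ → ZMod d
  | 0 => c
  | n + 1 => v n

/-- The state `f|_c`, given by `f(c v) = f(c) f|_c(v)`. -/
def state {d : ℕ} (f : (ℕ → ZMod d) → (ℕ → ZMod d)) (c : ZMod d) : (ℕ → ZMod d) → (ℕ → ZMod d) :=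
  fun v n => f (cons c v) (n + 1)

/-- The state `f|_{w_1 ⋯ w_n} = (f|_{w_1})|_{w_2 ⋯ w_n}`. -/
def states {d : ℕ} (f : (ℕ → ZMod d) → (ℕ → ZMod d)) (w : List (ZMod d)) :
    (ℕ → ZMod d) → (ℕ → ZMod d) :=
  w.foldl state f

/-- `g` is finite-state. -/
def IsFiniteState {d : ℕ} (g : Equiv.Perm (ℕ → ZMod d)) : Prop :=
  (Set.range fun w : List (ZMod d) => states (⇑g) w).Finite

/-- The group `G_g` generated by the automaton of `g`, i.e. by all the states of `g`. -/
def autGroup {d : ℕ} (g : Equiv.Perm (ℕ → ZMod d)) : Subgroup (Equiv.Perm (ℕ → ZMod d)) :=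
  Subgroup.closure {h | ∃ w : List (ZMod d), ⇑h = states (⇑g) w}

/-- The group `⨁_{ℤ^l} ℤ_d^k` of the finitely supported functions `ℤ^l → ℤ_d^k`, written
multiplicatively. -/
def Base (d k l : ℕ) : Type := Multiplicative ((Fin l → ℤ) →₀ (Fin k → ZMod d))

noncomputable instance (d k l : ℕ) : CommGroup (Base d k l) :=
  inferInstanceAs (CommGroup (Multiplicative ((Fin l → ℤ) →₀ (Fin k → ZMod d))))

/-- The shift by `q ∈ ℤ^l`: the function `f` is sent to `i ↦ f (i - q)`. -/
noncomputable def shiftBy (d k l : ℕ) (q : Multiplicative (Fin l → ℤ)) : MulAut (Base d k l) :=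
  AddEquiv.toMultiplicative (Finsupp.domCongr (Equiv.addLeft q.toAdd))

lemma shiftBy_one (d k l : ℕ) : shiftBy d k l 1 = 1 := by
  apply MulEquiv.ext
  intro f
  apply Multiplicative.toAdd.injective
  apply Finsupp.ext
  intro i
  show (Multiplicative.toAdd f) (-(0 : Fin l → ℤ) + i) = (Multiplicative.toAdd f) i
  rw [neg_zero, zero_add]

lemma shiftBy_mul (d k l : ℕ) (q r : Multiplicative (Fin l → ℤ)) :
    shiftBy d k l (q * r) = shiftBy d k l q * shiftBy d k l r := by
  apply MulEquiv.ext
  intro f
  apply Multiplicative.toAdd.injective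
  apply Finsupp.ext
  intro i
  show (Multiplicative.toAdd f) (-(q.toAdd + r.toAdd) + i) =
    (Multiplicative.toAdd f) (-r.toAdd + (-q.toAdd + i))
  congr 1
  abel

/-- The action of `ℤ^l` by shifts on `⨁_{ℤ^l} ℤ_d^k`. -/
noncomputable def shift (d k l : ℕ) : Multiplicative (Fin l → ℤ) →* MulAut (Base d k l) where
  toFun := shiftBy d k l
  map_one' := shiftBy_one d k l
  map_mul' := shiftBy_mul d k l

/-- The restricted wreath product `ℤ_d^k ≀ ℤ^l`. -/
abbrev Wreath (d k l : ℕ) : Type := Base d k l ⋊[shift d k l] Multiplicative (Fin l → ℤ)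

/-- A commutator in the wreath product has order dividing `d`. -/
lemma wreath_law {d k l : ℕ} (x y : Wreath d k l) : (x * y * x⁻¹ * y⁻¹) ^ d = 1 := by
  set z := x * y * x⁻¹ * y⁻¹ with hz
  have h1 : z.right = 1 := by
    rw [hz]
    simp only [SemidirectProduct.mul_right, SemidirectProduct.inv_right]
    rw [mul_comm x.right y.right]
    simp
  have h2 : z = SemidirectProduct.inl z.left := by
    ext1
    · simp
    · simp [h1]
  rw [h2, ← map_pow]
  have h3 : z.left ^ d = 1 := by
    have h4 : ∀ f : (Fin l → ℤ) →₀ (Fin k → ZMod d), d • f = 0 := by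
      intro f
      ext i j
      simp
    exact h4 (Multiplicative.toAdd z.left)
  rw [h3, map_one]

open Pool.Agent.Q89.AffAut2

/-- the automorphism -/
noncomputable def gg (d : ℕ) : Equiv.Perm (ℕ → ZMod d) := psi (ZMod d) (uA (ZMod d))

/-- its state -/
noncomputable def hh (d : ℕ) : Equiv.Perm (ℕ → ZMod d) := psi (ZMod d) (uB (ZMod d))

lemma gg_eq (d : ℕ) : (⇑(gg d) : (ℕ → ZMod d) → (ℕ → ZMod d)) = fM := by
  funext x
  exact psi_uA x

lemma hh_eq (d : ℕ) : (⇑(hh d) : (ℕ → ZMod d) → (ℕ → ZMod d)) = fN := by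
  funext x
  exact psi_uB x

/-- the matrix of `gg` -/
def aa (d : ℕ) (i j : ℕ) : ZMod d :=
  if i = j then 1 else if i % 2 = 0 ∧ (j = i + 1 ∨ j = i + 2) then 1 else 0

lemma affine_gg (d : ℕ) : IsAffine (gg d) := by
  refine ⟨aa d, fun _ => 0, fun i => ?_, ?_⟩
  · simp [aa]
  · rw [gg_eq]
    funext x j
    rw [affineMap, zero_add]
    rcases Nat.eq_zero_or_pos j with h0 | h0
    · subst h0
      simp [fM, aa]
    · by_cases h : j % 2 = 1
      · obtain ⟨m, rfl⟩ : ∃ m, j = 2 * m + 1 := ⟨j / 2, by omega⟩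
        rw [Finset.sum_range_succ, Finset.sum_range_succ, Finset.sum_eq_zero]
        · have h1 : aa d (2 * m) (2 * m + 1) = 1 := by
            unfold aa
            rw [if_neg (by omega), if_pos (by omega)]
          have h2 : aa d (2 * m + 1) (2 * m + 1) = 1 := by
            unfold aa
            rw [if_pos rfl]
          rw [h1, h2, fM, if_pos h, mul_one, mul_one, zero_add, Nat.add_sub_cancel, add_comm]
        · intro i hi
          rw [Finset.mem_range] at hi
          have h1 : aa d i (2 * m + 1) = 0 := by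
            unfold aa
            rw [if_neg (by omega), if_neg (by omega)]
          rw [h1, mul_zero]
      · obtain ⟨m, rfl⟩ : ∃ m, j = 2 * m + 2 := ⟨j / 2 - 1, by omega⟩
        rw [Finset.sum_range_succ, Finset.sum_range_succ, Finset.sum_range_succ,
          Finset.sum_eq_zero]
        · have h1 : aa d (2 * m) (2 * m + 2) = 1 := by
            unfold aa
            rw [if_neg (by omega), if_pos (by omega)]
          have h2 : aa d (2 * m + 1) (2 * m + 2) = 0 := by
            unfold aa
            rw [if_neg (by omega), if_neg (by omega)]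
          have h3 : aa d (2 * m + 2) (2 * m + 2) = 1 := by
            unfold aa
            rw [if_pos rfl]
          rw [h1, h2, h3, fM, if_neg h, if_neg (by omega), mul_one, mul_one, zero_add, mul_zero,
            add_zero, Nat.add_sub_cancel, add_comm]
        · intro i hi
          rw [Finset.mem_range] at hi
          have h1 : aa d i (2 * m + 2) = 0 := by
            unfold aa
            rw [if_neg (by omega), if_neg (by omega)]
          rw [h1, mul_zero]

/-- first family of states -/
def PM {d : ℕ} (c : ZMod d) (x : ℕ → ZMod d) : ℕ → ZMod d :=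
  fun j => fM x j + if j = 0 then c else 0

/-- second family of states -/
def PN {d : ℕ} (c : ZMod d) (x : ℕ → ZMod d) : ℕ → ZMod d :=
  fun j => fN x j + if j = 0 ∨ j = 1 then c else 0

lemma state_PM {d : ℕ} (c e : ZMod d) : state (PM c) e = PN e := by
  funext v n
  show fM (cons e v) (n + 1) + (if n + 1 = 0 then c else 0) =
    fN v n + (if n = 0 ∨ n = 1 then e else 0)
  rw [if_neg (by omega), add_zero]
  match n with
  | 0 => simp [fM, fN, cons]
  | 1 => simp [fM, fN, cons]
  | n + 2 =>
    rw [if_neg (by omega), add_zero]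
    by_cases h : n % 2 = 0
    · rw [fM, if_pos (by omega), fN, if_neg (by omega), if_neg (by omega)]
      rfl
    · rw [fM, if_neg (by omega), if_neg (by omega), fN, if_pos (by omega), if_neg (by omega)]
      rfl

lemma state_PN {d : ℕ} (c e : ZMod d) : state (PN c) e = PM c := by
  funext v n
  show fN (cons e v) (n + 1) + (if n + 1 = 0 ∨ n + 1 = 1 then c else 0) =
    fM v n + (if n = 0 then c else 0)
  match n with
  | 0 => simp [fM, fN, cons]
  | n + 1 =>
    rw [if_neg (by omega), if_neg (by omega), add_zero, add_zero]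
    by_cases h : n % 2 = 0
    · rw [fM, if_pos (by omega), fN, if_neg (by omega), if_neg (by omega)]
      rfl
    · obtain ⟨m, rfl⟩ : ∃ m, n = m + 1 := ⟨n - 1, by omega⟩
      rw [fM, if_neg (by omega), if_neg (by omega), fN, if_pos (by omega), if_neg (by omega)]
      rfl

lemma states_mem {d : ℕ} (w : List (ZMod d)) : ∀ f ∈ Set.range (PM (d := d)) ∪ Set.range PN,
    states f w ∈ Set.range (PM (d := d)) ∪ Set.range PN := by
  induction w with
  | nil => intro f hf; exact hf
  | cons e w ih =>
    intro f hf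
    apply ih
    rcases hf with ⟨c, rfl⟩ | ⟨c, rfl⟩
    · rw [state_PM]; exact Or.inr ⟨e, rfl⟩
    · rw [state_PN]; exact Or.inl ⟨c, rfl⟩

lemma PM_zero (d : ℕ) : PM (0 : ZMod d) = fM := by
  funext x j
  simp [PM]

lemma PN_zero (d : ℕ) : PN (0 : ZMod d) = fN := by
  funext x j
  simp [PN]

lemma finiteState_gg (d : ℕ) [NeZero d] : IsFiniteState (gg d) := by
  apply ((Set.finite_range (PM (d := d))).union (Set.finite_range PN)).subset
  rintro _ ⟨w, rfl⟩
  apply states_mem
  left
  exact ⟨0, by rw [PM_zero, gg_eq]⟩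

lemma gg_mem (d : ℕ) : gg d ∈ autGroup (gg d) := by
  apply Subgroup.subset_closure
  exact ⟨[], rfl⟩

lemma hh_mem (d : ℕ) : hh d ∈ autGroup (gg d) := by
  apply Subgroup.subset_closure
  refine ⟨[0], ?_⟩
  rw [hh_eq]
  show fN = state (⇑(gg d)) 0
  rw [gg_eq, ← PM_zero, state_PM, PN_zero]

lemma key {d : ℕ} (hd : 2 ≤ d) {e n : ℕ} (he : 0 < e) (hn : e < n) :
    ((gg d) ^ n * (hh d) ^ n * ((gg d) ^ n)⁻¹ * ((hh d) ^ n)⁻¹) ^ e ≠ 1 := by
  have : Fact (1 < d) := ⟨by omega⟩
  intro h
  apply comm_pow_ne (R := ZMod d) he hn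
  apply psi_inj
  rw [map_one, ← h]
  simp only [map_pow, map_mul, map_inv, gg, hh]

/-- For every `d ≥ 2` there is a finite-state affine automorphism `g` of the `d`-ary tree such
that the group `G_g` is infinite and, for all `e ≥ 1` and all `k`, `l` (in particular for `e = d`),
no normal subgroup of finite index of `G_g` is isomorphic to `ℤ_e^k ≀ ℤ^l`. -/
theorem result : ∀ d : ℕ, 2 ≤ d → ∃ g : Equiv.Perm (ℕ → ZMod d),
    IsAffine g ∧ IsFiniteState g ∧ Infinite (autGroup g) ∧
    ∀ (e k l : ℕ), 0 < e → ∀ N : Subgroup (autGroup g), N.Normal → N.FiniteIndex →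
      IsEmpty (N ≃* Wreath e k l) := by
  intro d hd
  have : NeZero d := ⟨by omega⟩
  refine ⟨gg d, affine_gg d, finiteState_gg d, ?_, ?_⟩
  · by_contra hfin
    rw [not_infinite_iff_finite] at hfin
    set m := Nat.card (autGroup (gg d)) with hm
    have hmpos : 0 < m := Nat.card_pos
    have h1 : ∀ x ∈ autGroup (gg d), x ^ (m * (1 + 1)) = 1 := by
      intro x hx
      have h2 : (⟨x, hx⟩ : autGroup (gg d)) ^ m = 1 := pow_card_eq_one'
      have h3 : x ^ m = 1 := congrArg Subtype.val h2
      rw [pow_mul, h3, one_pow]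
    apply key hd (e := 1) (n := m * (1 + 1)) one_pos (by omega)
    rw [h1 _ (gg_mem d), h1 _ (hh_mem d)]
    simp
  · intro e k l he N hN hNi
    refine ⟨fun φ => ?_⟩
    set m := N.index with hm
    have hmpos : 0 < m := Nat.pos_of_ne_zero hNi.index_ne_zero
    set n := m * (e + 1) with hn
    have hen : e < n := by
      calc e < 1 * (e + 1) := by omega
        _ ≤ m * (e + 1) := Nat.mul_le_mul_right _ hmpos
    have h1 : ∀ x : autGroup (gg d), x ^ n ∈ N := by
      intro x
      rw [hn, pow_mul]
      exact N.pow_mem (Subgroup.pow_index_mem N x) _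
    let x : autGroup (gg d) := ⟨gg d, gg_mem d⟩
    let y : autGroup (gg d) := ⟨hh d, hh_mem d⟩
    let X : N := ⟨x ^ n, h1 x⟩
    let Y : N := ⟨y ^ n, h1 y⟩
    have h2 : (X * Y * X⁻¹ * Y⁻¹) ^ e = 1 := by
      apply φ.injective
      rw [map_pow, map_mul, map_mul, map_mul, map_inv, map_inv, map_one]
      exact wreath_law _ _
    apply key hd he hen
    have h3 := congrArg (fun z : N => ((z : autGroup (gg d)) : Equiv.Perm (ℕ → ZMod d))) h2
    exact h3

end Pool.Agent.Results.MP_7b3742_al.EveryAlphabet
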